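import Pool.Agent.P.MP_344d54_co.Basic

open Polynomial

namespace Pool.Agent.Results.MP_344d54_co.Counterexample

open Classical in
/-- The `m × (n+1)` dope matrix of `P` with respect to `L`: the `(i, j)` entry is `1` if the
`j`-th derivative of `P` vanishes at `L i`, and `0` otherwise. -/
noncomputable def dope {m : ℕ} (L : Fin m → ℂ) (n : ℕ) (P : ℂ[X]) :
    Matrix (Fin m) (Fin (n + 1)) ℕ :=
  fun i j => if (derivative^[j] P).eval (L i) = 0 then 1 else 0

/-- The set of dope matrices of the complex polynomials of degree `n`. -/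
def dopeSet {m : ℕ} (L : Fin m → ℂ) (n : ℕ) : Set (Matrix (Fin m) (Fin (n + 1)) ℕ) :=
  {D | ∃ P : ℂ[X], P.degree = n ∧ D = dope L n P}

/-- For every `m ≥ 4` there are `m`-tuples of distinct complex numbers with the same sets of
dope matrices in every degree that are not related by an affine map and a field automorphism. -/
theorem result : ∀ m : ℕ, 4 ≤ m → ∃ L L' : Fin m → ℂ,
    Function.Injective L ∧ Function.Injective L' ∧ (∀ n : ℕ, dopeSet L n = dopeSet L' n) ∧
    ¬ ∃ (a b : ℂ) (φ : ℂ ≃+* ℂ), b ≠ 0 ∧ ∀ i, L' i = a + b * φ (L i) := by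
  intro m hm
  let side : Fin m → Bool := fun i => decide (i.1 < 2)
  let r : Fin m → ℂ := fun i => if i.1 < 2 then (i.1 : ℂ) else ((i.1 - 2 : ℕ) : ℂ)
  haveI : Nonempty (Fin m) := ⟨⟨0, by omega⟩⟩
  obtain ⟨t, htS, ht0, ht⟩ := Pool.Agent.P.MP_344d54_co.exists_generic side r (c := 1) (c' := -1)
    one_ne_zero (neg_ne_zero.mpr one_ne_zero) (Set.range fun q : ℚ => (q : ℂ))
    (Set.countable_range _)
  have hlin : ∀ p q : ℚ, (p : ℂ) * t = q → q = 0 := by
    intro p q h
    by_contra hq
    have hp : (p : ℂ) ≠ 0 := by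
      intro h0
      rw [h0, zero_mul] at h
      exact hq (by exact_mod_cast h.symm)
    exact htS ⟨q / p, by push_cast; rw [← h]; field_simp⟩
  have hinj : ∀ c : ℚ, c ≠ 0 →
      Function.Injective (Pool.Agent.P.MP_344d54_co.pts side r c t) := by
    intro c hc i j hij
    have hc' : (c : ℂ) ≠ 0 := by exact_mod_cast hc
    simp only [Pool.Agent.P.MP_344d54_co.pts, side, r, decide_eq_true_eq] at hij
    by_cases hi : i.1 < 2 <;> by_cases hj : j.1 < 2 <;> simp only [hi, hj, if_true, if_false] at hij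
    · have := mul_left_cancel₀ (mul_ne_zero hc' ht0) (add_right_cancel hij)
      exact Fin.ext (by exact_mod_cast this)
    · have := hlin (((j.1 - 2 : ℕ) : ℚ) - c * i.1) 1 (by
        rw [Rat.cast_sub, Rat.cast_mul, Rat.cast_natCast, Rat.cast_natCast, Rat.cast_one]
        linear_combination -hij)
      exact absurd this one_ne_zero
    · have := hlin (((i.1 - 2 : ℕ) : ℚ) - c * j.1) 1 (by
        rw [Rat.cast_sub, Rat.cast_mul, Rat.cast_natCast, Rat.cast_natCast, Rat.cast_one]
        linear_combination hij)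
      exact absurd this one_ne_zero
    · have h1 := mul_left_cancel₀ ht0 hij
      have h2 : i.1 - 2 = j.1 - 2 := by exact_mod_cast h1
      exact Fin.ext (by omega)
  have hsub : ∀ (L L' : Fin m → ℂ) (n : ℕ), (∀ Y, Pool.Agent.P.MP_344d54_co.Poised L n Y ↔
      Pool.Agent.P.MP_344d54_co.Poised L' n Y) → dopeSet L n ⊆ dopeSet L' n := by
    rintro L L' n h D ⟨P, hP, rfl⟩
    obtain ⟨P', hP', hiff⟩ := Pool.Agent.P.MP_344d54_co.pattern L L' n h hP
    refine ⟨P', hP', ?_⟩
    ext i j
    have := hiff i j (Nat.lt_succ_iff.mp j.2)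
    simp only [Pool.Agent.P.MP_344d54_co.dv_apply] at this
    simp only [dope, this]
  refine ⟨_, _, by simpa using hinj 1 one_ne_zero, by simpa using hinj (-1) (by norm_num),
    fun n => Set.Subset.antisymm (hsub _ _ n (ht n)) (hsub _ _ n fun Y => (ht n Y).symm), ?_⟩
  rintro ⟨a, b, φ, -, h⟩
  have h0 := h ⟨0, by omega⟩
  have h1 := h ⟨1, by omega⟩
  have h2 := h ⟨2, by omega⟩
  have h3 := h ⟨3, by omega⟩
  simp [Pool.Agent.P.MP_344d54_co.pts, side, r] at h0 h1 h2 h3
  apply ht0
  linear_combination (-1 / 2 : ℂ) * h1 + (1 / 2 : ℂ) * h0 + (1 / 2 : ℂ) * h3 - (1 / 2 : ℂ) * h2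

end Pool.Agent.Results.MP_344d54_co.Counterexample
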